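import Mathlib
import Pool.Agent.H13.Berg.Unb

/-!
# Slowly oscillating functions on pseudobounded finitary group balleans (MP_b2dc7d_gt)

If the finitary ballean of `G` is pseudobounded, then a slowly oscillating `φ : G → ℝ` is constant
at infinity if and only if its variations `n ↦ #{x : 2⁻ⁿ ≤ |φ (g x) - φ x|}` (`g ∈ G`) are
eventually dominated by one function.
-/

namespace Pool.Agent.Results.MP_b2dc7d_gt.DominatedVariation

open scoped Pointwise Topology
open Filter

/-- The set `E_F[x] = {x} ∪ F x`. -/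
def entourageBall {G : Type*} [Group G] (F : Set G) (x : G) : Set G := {x} ∪ F * {x}

/-- Slowly oscillating functions. -/
def SlowlyOscillating {G : Type*} [Group G] (φ : G → ℝ) : Prop :=
  ∀ ε : ℝ, 0 < ε → ∀ F : Set G, F.Finite →
    ∃ B : Set G, B.Finite ∧ ∀ x, x ∉ B → Metric.diam (φ '' entourageBall F x) < ε

/-- The finitary ballean of `G` is pseudobounded. -/
def Pseudobounded (G : Type*) [Group G] : Prop :=
  ∀ φ : G → ℝ, SlowlyOscillating φ →
    ∃ B : Set G, B.Finite ∧ Bornology.IsBounded (φ '' (Set.univ \ B))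

/-- Functions constant at infinity. -/
def ConstantAtInfinity {G : Type*} [Group G] (φ : G → ℝ) : Prop :=
  ∃ c : ℝ, ∀ U ∈ 𝓝 c, (Set.univ \ φ ⁻¹' U).Finite

/-- The variations of `φ` are eventually dominated by one function `h : ℕ → ℕ`. -/
def HasDominatedVariation {G : Type*} [Group G] (φ : G → ℝ) : Prop :=
  ∃ h : ℕ → ℕ, ∀ g : G, ∀ᶠ n in atTop, {x : G | (1 / 2 : ℝ) ^ n ≤ |φ (g * x) - φ x|}.ncard ≤ h n

lemma so_finite {G : Type*} [Group G] {f : G → ℝ} (hf : SlowlyOscillating f) (g : G) (δ : ℝ)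
    (hδ : 0 < δ) : {x : G | δ ≤ |f (g * x) - f x|}.Finite := by
  obtain ⟨B, hB, hBx⟩ := hf δ hδ {g} (Set.finite_singleton g)
  refine hB.subset ?_
  intro x hx
  by_contra hxB
  have h1 := hBx x hxB
  have hfin : (f '' entourageBall {g} x).Finite := by
    apply Set.Finite.image
    unfold entourageBall
    exact (Set.finite_singleton x).union ((Set.finite_singleton g).mul (Set.finite_singleton x))
  have h2 := Metric.dist_le_diam_of_mem hfin.isBounded
    (show f (g * x) ∈ f '' entourageBall {g} x from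
      ⟨g * x, Or.inr (Set.mul_mem_mul rfl rfl), rfl⟩)
    (show f x ∈ f '' entourageBall {g} x from ⟨x, Or.inl rfl, rfl⟩)
  rw [Real.dist_eq] at h2
  exact absurd (lt_of_le_of_lt (le_trans hx h2) h1) (lt_irrefl _)

lemma so_of_finite {G : Type*} [Group G] {f : G → ℝ}
    (hf : ∀ g : G, ∀ δ > 0, {x : G | δ ≤ |f (g * x) - f x|}.Finite) : SlowlyOscillating f := by
  intro ε hε F hF
  refine ⟨⋃ g ∈ F, {x : G | ε / 3 ≤ |f (g * x) - f x|},
    hF.biUnion fun g _ => hf g _ (by positivity), fun x hx => ?_⟩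
  simp only [Set.mem_iUnion, Set.mem_setOf_eq, not_exists, not_le] at hx
  have hx' : ∀ y ∈ entourageBall F x, |f y - f x| ≤ ε / 3 := by
    rintro y (hy | ⟨g, hg, z, hz, rfl⟩)
    · rw [Set.mem_singleton_iff] at hy
      rw [hy, sub_self, abs_zero]; positivity
    · rw [Set.mem_singleton_iff] at hz
      subst hz
      exact (hx g hg).le
  have : Metric.diam (f '' entourageBall F x) ≤ 2 * (ε / 3) := by
    apply Metric.diam_le_of_forall_dist_le (by positivity)
    rintro _ ⟨y, hy, rfl⟩ _ ⟨z, hz, rfl⟩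
    rw [Real.dist_eq]
    have h1 := abs_sub_le (f y) (f x) (f z)
    have h2 := hx' y hy
    have h3 := hx' z hz
    rw [abs_sub_comm (f x) (f z)] at h1
    linarith
  linarith

lemma dominated_of_const {G : Type*} [Group G] {f : G → ℝ} (h : ConstantAtInfinity f) :
    HasDominatedVariation f := by
  obtain ⟨c, hc⟩ := h
  let S : ℕ → Set G := fun n => Set.univ \ f ⁻¹' (Metric.ball c ((1 / 2 : ℝ) ^ n / 2))
  have hS : ∀ n, (S n).Finite := fun n => hc _ (Metric.ball_mem_nhds c (by positivity))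
  refine ⟨fun n => (S n).ncard + (S n).ncard, fun g => Filter.Eventually.of_forall fun n => ?_⟩
  have hsub : {x : G | (1 / 2 : ℝ) ^ n ≤ |f (g * x) - f x|} ⊆ (fun y => g⁻¹ * y) '' S n ∪ S n := by
    intro x hx
    by_contra hcon
    rw [Set.mem_union, not_or] at hcon
    obtain ⟨h1, h2⟩ := hcon
    have h1' : g * x ∉ S n := fun h' => h1 ⟨g * x, h', by simp⟩
    simp only [S, Set.mem_diff, Set.mem_univ, true_and, Set.mem_preimage, not_not,
      Metric.mem_ball, Real.dist_eq] at h1' h2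
    simp only [Set.mem_setOf_eq] at hx
    have h3 := abs_sub_le (f (g * x)) c (f x)
    rw [abs_sub_comm c (f x)] at h3
    linarith
  calc _ ≤ ((fun y => g⁻¹ * y) '' S n ∪ S n).ncard :=
        Set.ncard_le_ncard hsub (((hS n).image _).union (hS n))
    _ ≤ _ := Set.ncard_union_le _ _
    _ = _ := by rw [Set.ncard_image_of_injective _ (mul_right_injective g⁻¹)]

theorem result.{u} (G : Type u) [Group G] (hG : Pseudobounded G) (φ : G → ℝ)
    (hφ : SlowlyOscillating φ) : ConstantAtInfinity φ ↔ HasDominatedVariation φ := by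
  refine ⟨dominated_of_const, fun hd => ?_⟩
  rcases finite_or_infinite G with hfin | hinf
  · exact ⟨0, fun _ _ => Set.toFinite _⟩
  -- `φ` is bounded
  obtain ⟨B, hB, hbd⟩ := hG φ hφ
  have hbd2 : Bornology.IsBounded (Set.range φ) := by
    have h1 : Set.range φ ⊆ φ '' (Set.univ \ B) ∪ φ '' B := by
      rintro _ ⟨x, rfl⟩
      by_cases hx : x ∈ B
      · right; exact ⟨x, hx, rfl⟩
      · left; exact ⟨x, ⟨trivial, hx⟩, rfl⟩
    exact (hbd.union (hB.image φ).isBounded).subset h1
  obtain ⟨M0, hM0⟩ := hbd2.exists_norm_le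
  set M : ℝ := max M0 1 with hM
  have hM1 : 1 ≤ M := le_max_right _ _
  have hMφ : ∀ x, |φ x| ≤ M := fun x =>
    le_trans (by simpa using hM0 (φ x) ⟨x, rfl⟩) (le_max_left _ _)
  set f : G → ℝ := fun x => (φ x + M) / (2 * M) with hf
  have hf01 : ∀ x, f x ∈ Set.Icc (0:ℝ) 1 := by
    intro x
    have h1 := abs_le.1 (hMφ x)
    simp only [hf, Set.mem_Icc]
    constructor
    · apply div_nonneg <;> linarith
    · rw [div_le_one (by linarith)]; linarith
  have hdiff : ∀ g x, |f (g * x) - f x| ≤ |φ (g * x) - φ x| := by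
    intro g x
    have e1 : f (g * x) - f x = (φ (g * x) - φ x) / (2 * M) := by
      simp only [hf]; ring
    rw [e1, abs_div, abs_of_pos (show (0:ℝ) < 2 * M by linarith)]
    exact div_le_self (abs_nonneg _) (by linarith)
  have hso : ∀ g : G, ∀ δ > 0, {x : G | δ ≤ |f (g * x) - f x|}.Finite := fun g δ hδ =>
    (so_finite hφ g δ hδ).subset (fun x hx => le_trans hx (hdiff g x))
  have hdom : ∃ h : ℕ → ℕ, ∀ g : G, ∀ᶠ n in atTop,
      {x : G | (1 / 2 : ℝ) ^ n ≤ |f (g * x) - f x|}.ncard ≤ h n := by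
    obtain ⟨h, hh⟩ := hd
    refine ⟨h, fun g => (hh g).mono fun n hn => le_trans ?_ hn⟩
    exact Set.ncard_le_ncard (fun x hx => le_trans hx (hdiff g x))
      (so_finite hφ g _ (by positivity))
  have hunif : ∀ δ > 0, ∃ N : ℕ, ∀ g : G, {x : G | δ ≤ |f (g * x) - f x|}.encard ≤ N := by
    intro δ hδ
    by_contra hcon
    push Not at hcon
    obtain ⟨u, hu1, hu2⟩ := H13.Berg.exists_unbounded f hf01 hso hdom hδ (by
      intro N
      obtain ⟨g, hg⟩ := hcon N
      refine ⟨g, ?_⟩
      have h1 := (hso g δ hδ).cast_ncard_eq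
      rw [← h1] at hg
      exact le_of_lt (by exact_mod_cast hg))
    obtain ⟨B', hB', hbd'⟩ := hG u (so_of_finite hu1)
    have hbd2' : Bornology.IsBounded (Set.range u) := by
      have h1 : Set.range u ⊆ u '' (Set.univ \ B') ∪ u '' B' := by
        rintro _ ⟨x, rfl⟩
        by_cases hx : x ∈ B'
        · right; exact ⟨x, hx, rfl⟩
        · left; exact ⟨x, ⟨trivial, hx⟩, rfl⟩
      exact (hbd'.union (hB'.image u).isBounded).subset h1
    obtain ⟨K, hK⟩ := hbd2'.exists_norm_le
    obtain ⟨m, hm⟩ := exists_nat_gt K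
    obtain ⟨x, hx⟩ := hu2 m
    have h2 := hK (u x) ⟨x, rfl⟩
    rw [Real.norm_eq_abs] at h2
    have := le_abs_self (u x)
    linarith
  obtain ⟨c, hc⟩ := H13.Berg.tendsto_of_unif f hf01 hunif
  refine ⟨2 * M * c - M, fun U hU => ?_⟩
  have h1 : Tendsto φ cofinite (𝓝 (2 * M * c - M)) := by
    refine ((hc.const_mul (2 * M)).sub_const M).congr (fun x => ?_)
    simp only [hf]
    have : (2 * M) ≠ 0 := by linarith
    field_simp
    ring
  have := h1 hU
  rw [Filter.mem_map, Filter.mem_cofinite] at this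
  rwa [← Set.compl_eq_univ_diff]

end Pool.Agent.Results.MP_b2dc7d_gt.DominatedVariation
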